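import Pool.Agent.helper55.RI.Spec

/-! Project ri (MP_2bd605_lc), module R2: closure properties of r.e. predicates. -/

set_option autoImplicit false

namespace Pool.Agent.RI

open Pool.Agent.helper62 Prog Function Pool.Agent.helper81.PL

/-- bounded search -/
def R2_or {α : Type} (T : α × ℕ → Bool) (x : α × ℕ) : Bool :=
  Nat.rec (motive := fun _ => Bool) false (fun k acc => acc || T (x.1, k)) x.2

theorem R2_or_iff {α : Type} (T : α × ℕ → Bool) (a : α) (n : ℕ) :
    R2_or T (a, n) = true ↔ ∃ k < n, T (a, k) = true := by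
  induction n with
  | zero => simp [R2_or]
  | succ n ih =>
    have h : R2_or T (a, n + 1) = (R2_or T (a, n) || T (a, n)) := rfl
    rw [h, Bool.or_eq_true, ih]
    constructor
    · rintro (⟨k, hk, h1⟩ | h1)
      · exact ⟨k, by omega, h1⟩
      · exact ⟨n, by omega, h1⟩
    · rintro ⟨k, hk, h1⟩
      rcases Nat.lt_or_ge k n with h2 | h2
      · exact Or.inl ⟨k, h2, h1⟩
      · have : k = n := by omega
        subst this
        exact Or.inr h1

theorem R2_or_comp {α : Type} [Primcodable α] {T : α × ℕ → Bool} (hT : Computable T) :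
    Computable (R2_or T) := by
  have hh : Computable₂ (fun (x : α × ℕ) (y : ℕ × Bool) => y.2 || T (x.1, y.1)) := by
    have h1 : Computable (fun z : (α × ℕ) × (ℕ × Bool) => z.2.2) :=
      Computable.snd.comp Computable.snd
    have h2 : Computable (fun z : (α × ℕ) × (ℕ × Bool) => T (z.1.1, z.2.1)) :=
      hT.comp ((Computable.fst.comp Computable.fst).pair (Computable.fst.comp Computable.snd))
    exact Primrec.or.to_comp.comp h1 h2
  exact Computable.nat_rec Computable.snd (Computable.const false) hh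

/-- bounded universal quantifier -/
def R2_and {α : Type} (T : (α × ℕ) × ℕ → Bool) (g : α → ℕ) (x : α × ℕ) : Bool :=
  Nat.rec (motive := fun _ => Bool) true (fun k acc => acc && T ((x.1, k), x.2)) (g x.1)

theorem R2_and_iff {α : Type} (T : (α × ℕ) × ℕ → Bool) (g : α → ℕ) (a : α) (n : ℕ) :
    R2_and T g (a, n) = true ↔ ∀ k < g a, T ((a, k), n) = true := by
  unfold R2_and
  simp only
  induction g a with
  | zero => simp
  | succ m ih =>
    simp only [Bool.and_eq_true]
    rw [ih]
    constructor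
    · rintro ⟨h1, h2⟩ k hk
      rcases Nat.lt_or_ge k m with h3 | h3
      · exact h1 k h3
      · have : k = m := by omega
        subst this
        exact h2
    · intro h
      exact ⟨fun k hk => h k (by omega), h m (by omega)⟩

theorem R2_and_comp {α : Type} [Primcodable α] {T : (α × ℕ) × ℕ → Bool} (hT : Computable T)
    {g : α → ℕ} (hg : Computable g) : Computable (R2_and T g) := by
  have hh : Computable₂ (fun (x : α × ℕ) (y : ℕ × Bool) => y.2 && T ((x.1, y.1), x.2)) := by
    have h1 : Computable (fun z : (α × ℕ) × (ℕ × Bool) => z.2.2) :=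
      Computable.snd.comp Computable.snd
    have h2 : Computable (fun z : (α × ℕ) × (ℕ × Bool) => T ((z.1.1, z.2.1), z.1.2)) :=
      hT.comp (((Computable.fst.comp Computable.fst).pair (Computable.fst.comp Computable.snd)).pair
        (Computable.snd.comp Computable.fst))
    exact Primrec.and.to_comp.comp h1 h2
  exact Computable.nat_rec (hg.comp Computable.fst) (Computable.const true) hh

theorem R2_mk (hR1 : R1_stmt) {α : Type} [Primcodable α] {p : α → Prop} {T : α × ℕ → Bool}
    (hT : Computable T) (h : ∀ a, p a ↔ ∃ n, T (a, n) = true) : REPred p := by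
  rw [hR1 α p]
  refine ⟨R2_or T, R2_or_comp hT, ?_, ?_⟩
  · intro a n m hnm h1
    rw [R2_or_iff] at h1 ⊢
    obtain ⟨k, hk, h2⟩ := h1
    exact ⟨k, by omega, h2⟩
  · intro a
    rw [h a]
    constructor
    · rintro ⟨n, hn⟩
      exact ⟨n + 1, (R2_or_iff T a (n + 1)).2 ⟨n, by omega, hn⟩⟩
    · rintro ⟨n, hn⟩
      obtain ⟨k, -, hk⟩ := (R2_or_iff T a n).1 hn
      exact ⟨k, hk⟩

theorem R2_andor (hR1 : R1_stmt) (α : Type) [Primcodable α] (p q : α → Prop) (hp : REPred p)
    (hq : REPred q) : REPred (fun a => p a ∧ q a) ∧ REPred (fun a => p a ∨ q a) := by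
  obtain ⟨T, hT, hTm, hTp⟩ := (hR1 α p).1 hp
  obtain ⟨S, hS, hSm, hSp⟩ := (hR1 α q).1 hq
  constructor
  · refine R2_mk hR1 (T := fun x => T x && S x) (Primrec.and.to_comp.comp hT hS) fun a => ?_
    rw [hTp a, hSp a]
    constructor
    · rintro ⟨⟨n, hn⟩, ⟨m, hm⟩⟩
      refine ⟨max n m, ?_⟩
      rw [Bool.and_eq_true]
      exact ⟨hTm a n _ (le_max_left _ _) hn, hSm a m _ (le_max_right _ _) hm⟩
    · rintro ⟨n, hn⟩
      rw [Bool.and_eq_true] at hn
      exact ⟨⟨n, hn.1⟩, ⟨n, hn.2⟩⟩
  · refine R2_mk hR1 (T := fun x => T x || S x) (Primrec.or.to_comp.comp hT hS) fun a => ?_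
    rw [hTp a, hSp a]
    constructor
    · rintro (⟨n, hn⟩ | ⟨n, hn⟩)
      · exact ⟨n, by rw [Bool.or_eq_true]; exact Or.inl hn⟩
      · exact ⟨n, by rw [Bool.or_eq_true]; exact Or.inr hn⟩
    · rintro ⟨n, hn⟩
      rw [Bool.or_eq_true] at hn
      exact hn.elim (fun h => Or.inl ⟨n, h⟩) (fun h => Or.inr ⟨n, h⟩)

theorem R2_compf (hR1 : R1_stmt) (α β : Type) [Primcodable α] [Primcodable β] (f : α → β)
    (p : β → Prop) (hf : Computable f) (hp : REPred p) : REPred (fun a => p (f a)) := by
  obtain ⟨T, hT, -, hTp⟩ := (hR1 β p).1 hp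
  exact R2_mk hR1 (T := fun x => T (f x.1, x.2))
    (hT.comp ((hf.comp Computable.fst).pair Computable.snd)) fun a => hTp (f a)

theorem R2_ex (hR1 : R1_stmt) (α β : Type) [Primcodable α] [Primcodable β] (p : α → β → Prop)
    (hp : REPred (fun x : α × β => p x.1 x.2)) : REPred (fun a => ∃ b, p a b) := by
  obtain ⟨T, hT, -, hTp⟩ := (hR1 _ _).1 hp
  have hc : Computable (fun x : α × ℕ => (Option.casesOn
      (Encodable.decode (α := β) x.2.unpair.1) false
      (fun b => T ((x.1, b), x.2.unpair.2)) : Bool)) := by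
    refine Computable.option_casesOn ?_ (Computable.const false) ?_
    · exact Primrec.decode.to_comp.comp
        (Computable.fst.comp (Primrec.unpair.to_comp.comp Computable.snd))
    · exact hT.comp (((Computable.fst.comp Computable.fst).pair Computable.snd).pair
        (Computable.snd.comp (Primrec.unpair.to_comp.comp (Computable.snd.comp Computable.fst))))
  refine R2_mk hR1 hc fun a => ?_
  constructor
  · rintro ⟨b, hb⟩
    obtain ⟨n, hn⟩ := (hTp (a, b)).1 hb
    refine ⟨Nat.pair (Encodable.encode b) n, ?_⟩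
    simp only [Nat.unpair_pair, Encodable.encodek]
    exact hn
  · rintro ⟨n, hn⟩
    rcases h : Encodable.decode (α := β) n.unpair.1 with _ | b
    · simp only [h] at hn
      exact absurd hn (by decide)
    · simp only [h] at hn
      exact ⟨b, (hTp (a, b)).2 ⟨_, hn⟩⟩

theorem R2_ball (hR1 : R1_stmt) (α : Type) [Primcodable α] (p : α → ℕ → Prop) (g : α → ℕ)
    (hp : REPred (fun x : α × ℕ => p x.1 x.2)) (hg : Computable g) :
    REPred (fun a => ∀ k < g a, p a k) := by
  obtain ⟨T, hT, hTm, hTp⟩ := (hR1 _ _).1 hp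
  refine R2_mk hR1 (R2_and_comp hT hg) fun a => ?_
  constructor
  · intro h
    have h1 : ∀ k < g a, ∃ n, T ((a, k), n) = true := fun k hk => (hTp (a, k)).1 (h k hk)
    choose! N hN using h1
    refine ⟨(Finset.range (g a)).sup N, (R2_and_iff T g a _).2 fun k hk => ?_⟩
    exact hTm (a, k) _ _ (Finset.le_sup (f := N) (Finset.mem_range.2 hk)) (hN k hk)
  · rintro ⟨n, hn⟩ k hk
    exact (hTp (a, k)).2 ⟨n, (R2_and_iff T g a n).1 hn k hk⟩

theorem R2_blist (hR1 : R1_stmt) (α β : Type) [Primcodable α] [Primcodable β] (p : α → β → Prop)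
    (g : α → List β) (hp : REPred (fun x : α × β => p x.1 x.2)) (hg : Computable g) :
    REPred (fun a => ∀ b ∈ g a, p a b) := by
  obtain ⟨T, hT, -, hTp⟩ := (hR1 _ _).1 hp
  have hc : Computable (fun x : (α × ℕ) × ℕ => (Option.casesOn (g x.1.1)[x.1.2]? false
      (fun b => T ((x.1.1, b), x.2)) : Bool)) := by
    refine Computable.option_casesOn ?_ (Computable.const false) ?_
    · exact Computable.list_getElem?.comp (hg.comp (Computable.fst.comp Computable.fst))
        (Computable.snd.comp Computable.fst)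
    · exact hT.comp (((Computable.fst.comp (Computable.fst.comp Computable.fst)).pair
        Computable.snd).pair (Computable.snd.comp Computable.fst))
  have hq : REPred (fun x : α × ℕ => ∃ b, (g x.1)[x.2]? = some b ∧ p x.1 b) := by
    refine R2_mk hR1 hc fun x => ?_
    constructor
    · rintro ⟨b, hb, hpb⟩
      obtain ⟨n, hn⟩ := (hTp (x.1, b)).1 hpb
      refine ⟨n, ?_⟩
      simp only [hb]
      exact hn
    · rintro ⟨n, hn⟩
      rcases h : (g x.1)[x.2]? with _ | b
      · simp only [h] at hn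
        exact absurd hn (by decide)
      · simp only [h] at hn
        exact ⟨b, rfl, (hTp (x.1, b)).2 ⟨_, hn⟩⟩
  have h1 := R2_ball hR1 α (fun a k => ∃ b, (g a)[k]? = some b ∧ p a b) (fun a => (g a).length) hq
    (Computable.list_length.comp hg)
  have h2 : (fun a => ∀ b ∈ g a, p a b) =
      fun a => ∀ k < (g a).length, ∃ b, (g a)[k]? = some b ∧ p a b := by
    funext a
    apply propext
    constructor
    · intro h k hk
      exact ⟨(g a)[k], List.getElem?_eq_getElem hk, h _ (List.getElem_mem hk)⟩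
    · intro h b hb
      obtain ⟨k, hk, rfl⟩ := List.getElem_of_mem hb
      obtain ⟨b', h3, h4⟩ := h k hk
      rw [List.getElem?_eq_getElem hk] at h3
      rw [Option.some_inj.1 h3]
      exact h4
  rw [h2]
  exact h1

theorem R2 (hR1 : R1_stmt) : R2_stmt :=
  ⟨fun α _ p q hp hq => R2_andor hR1 α p q hp hq,
    fun α β _ _ f p hf hp => R2_compf hR1 α β f p hf hp,
    fun α β _ _ p hp => R2_ex hR1 α β p hp,
    fun α _ p g hp hg => R2_ball hR1 α p g hp hg,
    fun α β _ _ p g hp hg => R2_blist hR1 α β p g hp hg⟩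

end Pool.Agent.RI
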